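import Pool.Agent.Q241.CJ.NIb

/-!
# The relative norm of an ideal is generated by the characteristic polynomial of `X`

Part of the job NI of project CJ (helper7).
-/

set_option autoImplicit false

namespace Pool.Agent.Q241.CJ

open Polynomial

section rel

/-- The characteristic polynomial of `X` on `L[X] / q`, `q` a maximal ideal. -/
theorem exists_poly {L : Type} [Field L] (q : Ideal L[X]) [hq : q.IsMaximal] :
    ∃ g : L[X], g.Monic ∧ q = Ideal.span {g} ∧
      ∀ t : L, g.eval t = Algebra.norm L (Ideal.Quotient.mk q (C t - X)) := by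
  have hqp : q.IsPrincipal := IsPrincipalIdealRing.principal q
  obtain ⟨a, ha⟩ := hqp
  have ha' : q = Ideal.span {a} := ha
  have ha0 : a ≠ 0 := by
    rintro rfl
    rw [Ideal.span_singleton_eq_bot.2 rfl] at ha'
    subst ha'
    exact Polynomial.not_isField L ((Ring.isField_iff_maximal_bot).2 hq)
  subst ha'
  have hfin : FiniteDimensional L (L[X] ⧸ Ideal.span {a}) :=
    PowerBasis.finite (AdjoinRoot.powerBasis ha0)
  set f : (L[X] ⧸ Ideal.span {a}) →ₗ[L] (L[X] ⧸ Ideal.span {a}) :=
    LinearMap.mul L (L[X] ⧸ Ideal.span {a}) (Ideal.Quotient.mk _ X) with hf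
  refine ⟨f.charpoly, LinearMap.charpoly_monic f, ?_, fun t => ?_⟩
  · have h1 : f.charpoly ∈ Ideal.span {a} := by
      rw [← Ideal.Quotient.eq_zero_iff_mem]
      have h2 := LinearMap.aeval_self_charpoly f
      have h3 : aeval f f.charpoly = Algebra.lmul L (L[X] ⧸ Ideal.span {a})
          (aeval (Ideal.Quotient.mk (Ideal.span {a}) X) f.charpoly) := by
        rw [← aeval_algHom_apply]
        rfl
      rw [h3] at h2
      have h4 := LinearMap.congr_fun h2 1
      simp only [Algebra.coe_lmul_eq_mul, LinearMap.mul_apply', mul_one, LinearMap.zero_apply] at h4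
      have h5 : aeval (Ideal.Quotient.mk (Ideal.span {a}) X) f.charpoly =
          Ideal.Quotient.mk (Ideal.span {a}) f.charpoly := by
        have h6 := aeval_algHom_apply (Ideal.Quotient.mkₐ L (Ideal.span {a})) X f.charpoly
        rw [aeval_X_left_apply] at h6
        exact h6
      rwa [h5] at h4
    rw [Ideal.mem_span_singleton] at h1
    have h7 : f.charpoly.natDegree = a.natDegree := by
      rw [LinearMap.charpoly_natDegree, finrank_quotient_span_eq_natDegree]
    apply Ideal.span_singleton_eq_span_singleton.2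
    apply associated_of_dvd_of_natDegree_le h1 (LinearMap.charpoly_monic f).ne_zero h7.le
  · rw [eval_cp, Algebra.norm_apply]
    congr 1
    apply LinearMap.ext
    intro x
    simp only [LinearMap.sub_apply, LinearMap.smul_apply, Module.End.one_apply, hf,
      LinearMap.mul_apply', map_sub]
    congr 1
    exact Algebra.smul_def t x

variable {L S : Type} [Field L] [CharZero L] [CommRing S] [IsDedekindDomain S] [Algebra L S]
  [Algebra L[X] S] [IsScalarTower L L[X] S] [Module.Finite L[X] S] [Module.IsTorsionFree L[X] S]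

/-- The case of a maximal ideal. -/
theorem max_case (P : Ideal S) [hP : P.IsMaximal] [FiniteDimensional L (S ⧸ P)] :
    ∃ g : L[X], g.Monic ∧ Ideal.relNorm L[X] P = Ideal.span {g} ∧
      ∀ t : L, g.eval t = Algebra.norm L (Ideal.Quotient.mk P (algebraMap L[X] S (C t - X))) := by
  set q : Ideal L[X] := P.under L[X] with hq
  have hqm : q.IsMaximal := Ideal.IsMaximal.under L[X] P
  have hlo : P.LiesOver q := ⟨rfl⟩
  obtain ⟨g, hg, hgq, hgt⟩ := exists_poly q
  have hc : CharZero (FractionRing L[X]) := by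
    have := algebraRat.charZero (FractionRing L[X])
    exact this
  refine ⟨g ^ P.inertiaDeg L[X], hg.pow _, ?_, fun t => ?_⟩
  · rw [Ideal.relNorm_eq_pow_of_isMaximal P q, hgq, Ideal.span_singleton_pow]
  · rw [eval_pow, hgt]
    let _ : Field (L[X] ⧸ q) := Ideal.Quotient.field q
    let _ : Field (S ⧸ P) := Ideal.Quotient.field P
    have htow : IsScalarTower L (L[X] ⧸ q) (S ⧸ P) := by
      refine IsScalarTower.of_algebraMap_eq (fun x => ?_)
      have h2 : algebraMap L S x = algebraMap L[X] S (C x) := IsScalarTower.algebraMap_apply L L[X] S x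
      have h3 : algebraMap L (S ⧸ P) x = Ideal.Quotient.mk P (algebraMap L S x) := rfl
      rw [h3, h2]
      rfl
    have hfin : Module.Finite (L[X] ⧸ q) (S ⧸ P) :=
      Module.Finite.of_restrictScalars_finite L (L[X] ⧸ q) (S ⧸ P)
    rw [Ideal.inertiaDeg_eq_of_isMaximal q P]
    have h1 : Ideal.Quotient.mk P (algebraMap L[X] S (C t - X)) =
        algebraMap (L[X] ⧸ q) (S ⧸ P) (Ideal.Quotient.mk q (C t - X)) := rfl
    have h4 : Algebra.norm L (Algebra.norm (L[X] ⧸ q)
        (algebraMap (L[X] ⧸ q) (S ⧸ P) (Ideal.Quotient.mk q (C t - X)))) =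
        Algebra.norm L (algebraMap (L[X] ⧸ q) (S ⧸ P) (Ideal.Quotient.mk q (C t - X))) :=
      Algebra.norm_norm
    rw [h1, ← h4, Algebra.norm_algebraMap, map_pow]

/-- The relative norm. -/
theorem rel_all (hfin : ∀ I : Ideal S, I ≠ ⊥ → FiniteDimensional L (S ⧸ I)) (I : Ideal S) (hI : I ≠ ⊥) :
    ∃ g : L[X], g.Monic ∧ Ideal.relNorm L[X] I = Ideal.span {g} ∧
      ∀ t : L, g.eval t = Algebra.norm L (Ideal.Quotient.mk I (algebraMap L[X] S (C t - X))) := by
  induction I using UniqueFactorizationMonoid.induction_on_prime with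
  | h₁ => exact absurd rfl hI
  | h₂ I hIu =>
    obtain rfl : I = ⊤ := Ideal.isUnit_iff.1 hIu
    refine ⟨1, monic_one, ?_, fun t => ?_⟩
    · rw [Ideal.relNorm_top, Ideal.span_singleton_one]
    · have hs : Subsingleton (S ⧸ (⊤ : Ideal S)) := Ideal.Quotient.subsingleton_iff.2 rfl
      rw [eval_one, Algebra.norm_apply, LinearMap.det_eq_one_of_subsingleton]
  | h₃ I P hI0 hP IH =>
    have hP0 : P ≠ ⊥ := hP.ne_zero
    have hPm : P.IsMaximal := (Ideal.isPrime_of_prime hP).isMaximal hP0
    have f1 := hfin I hI0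
    have f2 := hfin P hP0
    have f3 := hfin (P * I) hI
    obtain ⟨g1, h1, h2, h3⟩ := IH hI0
    obtain ⟨g2, h4, h5, h6⟩ := max_case (L := L) P
    refine ⟨g2 * g1, h4.mul h1, ?_, fun t => ?_⟩
    · rw [map_mul, h2, h5, Ideal.span_singleton_mul_span_singleton]
    · rw [eval_mul, h3, h6, norm_mul_ideal P I hP0 hI0]

end rel

end Pool.Agent.Q241.CJ
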