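import Mathlib

/-!
# Norms on the quotients of a Dedekind domain which is finite over `L[X]`

Part of the job NI of project CJ (helper7).
-/

set_option autoImplicit false

namespace Pool.Agent.Q241.CJ

open Polynomial

section lin

variable {L : Type} [Field L]

/-- The characteristic polynomial at `t` is `det (t - f)`. -/
theorem eval_cp {V : Type} [AddCommGroup V] [Module L V] [FiniteDimensional L V] (f : V →ₗ[L] V)
    (t : L) : f.charpoly.eval t = LinearMap.det (t • (1 : V →ₗ[L] V) - f) := by
  classical
  rw [LinearMap.charpoly_def, Matrix.charpoly, eval_det, Matrix.matPolyEquiv_charmatrix, eval_sub,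
    eval_X, eval_C, ← LinearMap.det_toMatrix (Module.Free.chooseBasis L V)]
  congr 1
  rw [map_sub, map_smul, LinearMap.toMatrix_one, Matrix.scalar_apply, Matrix.smul_one_eq_diagonal]

/-- Determinants in exact sequences. -/
theorem det_exact {V1 V V2 : Type} [AddCommGroup V1] [Module L V1] [FiniteDimensional L V1]
    [AddCommGroup V] [Module L V] [FiniteDimensional L V] [AddCommGroup V2] [Module L V2]
    [FiniteDimensional L V2] (i : V1 →ₗ[L] V) (q : V →ₗ[L] V2) (hi : Function.Injective i)
    (hq : Function.Surjective q) (hiq : LinearMap.range i = LinearMap.ker q)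
    (f1 : V1 →ₗ[L] V1) (f : V →ₗ[L] V) (f2 : V2 →ₗ[L] V2) (h1 : f ∘ₗ i = i ∘ₗ f1)
    (h2 : q ∘ₗ f = f2 ∘ₗ q) :
    LinearMap.det f = LinearMap.det f1 * LinearMap.det f2 := by
  have hW : LinearMap.ker q ≤ (LinearMap.ker q).comap f := by
    intro x hx
    rw [Submodule.mem_comap, LinearMap.mem_ker]
    have h3 := LinearMap.congr_fun h2 x
    simp only [LinearMap.comp_apply] at h3
    rw [h3, LinearMap.mem_ker.1 hx, map_zero]
  rw [LinearMap.det_eq_det_mul_det (LinearMap.ker q) f hW]
  congr 1
  · -- the part on the kernel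
    let e : V1 ≃ₗ[L] LinearMap.ker q :=
      (LinearEquiv.ofInjective i hi).trans (LinearEquiv.ofEq _ _ hiq)
    rw [← LinearMap.det_conj f1 e]
    congr 1
    apply LinearMap.ext
    intro x
    obtain ⟨y, rfl⟩ := e.surjective x
    apply Subtype.ext
    simp only [LinearMap.comp_apply, LinearEquiv.coe_coe, LinearEquiv.symm_apply_apply]
    exact LinearMap.congr_fun h1 y
  · let e : (V ⧸ LinearMap.ker q) ≃ₗ[L] V2 := q.quotKerEquivOfSurjective hq
    rw [← LinearMap.det_conj _ e]
    congr 1
    apply LinearMap.ext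
    intro x
    obtain ⟨y, rfl⟩ := hq x
    have h4 : e.symm (q y) = Submodule.Quotient.mk y := by
      rw [LinearEquiv.symm_apply_eq]
      rfl
    simp only [LinearMap.comp_apply, LinearEquiv.coe_coe, h4, Submodule.mapQ_apply]
    exact LinearMap.congr_fun h2 y

end lin

end Pool.Agent.Q241.CJ
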