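import Pool.Agent.Q241.CJ.NIa

/-!
# The norm of an element on the quotients by ideals is multiplicative in the ideal

Part of the job NI of project CJ (helper7).
-/

set_option autoImplicit false

namespace Pool.Agent.Q241.CJ

open Polynomial

section mul

variable {L S : Type} [Field L] [CommRing S] [IsDedekindDomain S] [Algebra L S]

theorem mem_of_mul_mem {I J : Ideal S} (hI : I ≠ ⊥) {a : S}
    (ha : I * J ⊔ Ideal.span {a} = I) {b : S} (hb : a * b ∈ I * J) : b ∈ J := by
  have hle : Ideal.span {a} ≤ I := by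
    calc Ideal.span {a} ≤ I * J ⊔ Ideal.span {a} := le_sup_right
      _ = I := ha
  obtain ⟨C, hC⟩ := Ideal.dvd_iff_le.2 hle
  rw [hC, ← Ideal.mul_sup] at ha
  have h1 : J ⊔ C = ⊤ := by
    have h2 : I * (J ⊔ C) = I * ⊤ := by rw [ha, Ideal.mul_top]
    exact mul_left_cancel₀ (by exact hI) h2
  have h3 : Ideal.span {a} * Ideal.span {b} ≤ I * J := by
    rw [Ideal.span_singleton_mul_span_singleton, Ideal.span_singleton_le_iff_mem]
    exact hb
  rw [hC, mul_assoc] at h3
  have h4 : C * Ideal.span {b} ≤ J := by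
    have h5 := Ideal.dvd_iff_le.2 h3
    exact Ideal.dvd_iff_le.1 ((mul_dvd_mul_iff_left (by exact hI)).1 h5)
  have h6 : Ideal.span {b} ≤ J := by
    calc Ideal.span {b} = (J ⊔ C) * Ideal.span {b} := by rw [h1, Ideal.top_mul]
      _ = J * Ideal.span {b} ⊔ C * Ideal.span {b} := Ideal.sup_mul _ _ _
      _ ≤ J := sup_le Ideal.mul_le_left h4
  exact h6 (Ideal.mem_span_singleton_self b)

/-- Multiplicativity. -/
theorem norm_mul_ideal (I J : Ideal S) (hI : I ≠ ⊥) (hJ : J ≠ ⊥) [FiniteDimensional L (S ⧸ I)]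
    [FiniteDimensional L (S ⧸ J)] [FiniteDimensional L (S ⧸ (I * J))] (b : S) :
    Algebra.norm L (Ideal.Quotient.mk (I * J) b) =
      Algebra.norm L (Ideal.Quotient.mk I b) * Algebra.norm L (Ideal.Quotient.mk J b) := by
  have hIJ : I * J ≠ 0 := mul_ne_zero (by exact hI) (by exact hJ)
  obtain ⟨a, ha⟩ := IsDedekindDomain.exists_sup_span_eq (Ideal.mul_le_left : I * J ≤ I) hIJ
  have haI : a ∈ I := by
    rw [← ha]
    exact Ideal.mem_sup_right (Ideal.mem_span_singleton_self a)
  have hle : J ≤ Submodule.comap (LinearMap.mulLeft S a) (I * J) := by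
    intro x hx
    rw [Submodule.mem_comap]
    exact Ideal.mul_mem_mul haI hx
  let i : (S ⧸ J) →ₗ[L] (S ⧸ (I * J)) := (Submodule.mapQ J (I * J) (LinearMap.mulLeft S a) hle).restrictScalars L
  let q : (S ⧸ (I * J)) →ₗ[L] (S ⧸ I) := (Ideal.Quotient.factorₐ L (Ideal.mul_le_left : I * J ≤ I)).toLinearMap
  have hi0 : ∀ x : S, i (Ideal.Quotient.mk J x) = Ideal.Quotient.mk (I * J) (a * x) := fun x => rfl
  have hq0 : ∀ x : S, q (Ideal.Quotient.mk (I * J) x) = Ideal.Quotient.mk I x := fun x => rfl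
  have hi : Function.Injective i := by
    rw [← LinearMap.ker_eq_bot, LinearMap.ker_eq_bot']
    intro x hx
    obtain ⟨x, rfl⟩ := Ideal.Quotient.mk_surjective x
    rw [hi0, Ideal.Quotient.eq_zero_iff_mem] at hx
    rw [Ideal.Quotient.eq_zero_iff_mem]
    exact mem_of_mul_mem hI ha hx
  have hq : Function.Surjective q := by
    intro x
    obtain ⟨x, rfl⟩ := Ideal.Quotient.mk_surjective x
    exact ⟨Ideal.Quotient.mk (I * J) x, hq0 x⟩
  have hiq : LinearMap.range i = LinearMap.ker q := by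
    ext x
    obtain ⟨x, rfl⟩ := Ideal.Quotient.mk_surjective x
    rw [LinearMap.mem_ker, hq0, Ideal.Quotient.eq_zero_iff_mem, LinearMap.mem_range]
    constructor
    · rintro ⟨y, hy⟩
      obtain ⟨y, rfl⟩ := Ideal.Quotient.mk_surjective y
      rw [hi0, Ideal.Quotient.eq] at hy
      have h1 : a * y ∈ I := I.mul_mem_right _ haI
      have h2 : a * y - x ∈ I := Ideal.mul_le_left hy
      have h3 := I.sub_mem h1 h2
      rwa [sub_sub_cancel] at h3
    · intro hx
      rw [← ha, Submodule.mem_sup] at hx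
      obtain ⟨u, hu, v, hv, huv⟩ := hx
      obtain ⟨c, rfl⟩ := Ideal.mem_span_singleton'.1 hv
      refine ⟨Ideal.Quotient.mk J c, ?_⟩
      rw [hi0, Ideal.Quotient.eq, ← huv]
      have h4 : a * c - (u + c * a) = - u := by ring
      rw [h4]
      exact (I * J).neg_mem hu
  have key := det_exact i q hi hq hiq (LinearMap.mul L (S ⧸ J) (Ideal.Quotient.mk J b))
    (LinearMap.mul L (S ⧸ (I * J)) (Ideal.Quotient.mk (I * J) b))
    (LinearMap.mul L (S ⧸ I) (Ideal.Quotient.mk I b)) (by
      apply LinearMap.ext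
      intro x
      obtain ⟨x, rfl⟩ := Ideal.Quotient.mk_surjective x
      simp only [LinearMap.comp_apply, LinearMap.mul_apply', ← map_mul, hi0]
      congr 1
      ring) (by
      apply LinearMap.ext
      intro x
      obtain ⟨x, rfl⟩ := Ideal.Quotient.mk_surjective x
      simp only [LinearMap.comp_apply, LinearMap.mul_apply', ← map_mul, hq0])
  exact key.trans (mul_comm _ _)

end mul

end Pool.Agent.Q241.CJ
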